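import Mathlib
set_option autoImplicit false

/-!
# The random substitution `a ↦ {abaa, aaba}`, `b ↦ {abab, baba}` and its subshift

The letter `a` is `false : Bool` and the letter `b` is `true : Bool`.
-/

namespace Pool.Agent.helper30.RandomSubst

/-- The images of the letters under the random substitution. The letter `a` is `false` and the
letter `b` is `true`: `a ↦ {abaa, aaba}`, `b ↦ {abab, baba}`. -/
def subst : Bool → Set (List Bool)
  | false => {[false, true, false, false], [false, false, true, false]}
  | true => {[false, true, false, true], [true, false, true, false]}

/-- The set of images of a word: each letter is replaced independently. -/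
def substWord : List Bool → Set (List Bool)
  | [] => {[]}
  | c :: u => Set.image2 (· ++ ·) (subst c) (substWord u)

/-- The set of `k`-th iterates of the letter `a`. -/
def iter : ℕ → Set (List Bool)
  | 0 => {[false]}
  | k + 1 => ⋃ u ∈ iter k, substWord u

/-- A word is legal if it is a (contiguous) subword of some element of some `iter k`. -/
def Legal (w : List Bool) : Prop := ∃ k, ∃ u ∈ iter k, w <:+: u

/-- The random substitution subshift: all finite subwords are legal. -/
def X : Set (ℤ → Bool) :=
  {x | ∀ (i : ℤ) (n : ℕ), Legal (List.ofFn fun j : Fin n => x (i + j))}

lemma shift_mem {x : ℤ → Bool} (hx : x ∈ X) : (fun n => x (n + 1)) ∈ X := by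
  intro i n
  have h := hx (i + 1) n
  have e : (fun j : Fin n => x (i + 1 + j)) = fun j : Fin n => x (i + j + 1) := by
    funext j
    congr 1
    ring
  rw [e] at h
  exact h

/-- The left shift on `X`. -/
def shift (x : X) : X := ⟨fun n => x.1 (n + 1), shift_mem x.2⟩

/-- The automorphism group of the subshift: self-homeomorphisms of `X` commuting with the shift. -/
def AutX : Subgroup (X ≃ₜ X) where
  carrier := {f | ∀ x, f (shift x) = shift (f x)}
  mul_mem' := by
    intro f g hf hg x
    rw [Homeomorph.mul_apply, hg, hf]
    rfl
  one_mem' := fun x => rfl
  inv_mem' := by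
    intro f hf x
    rw [Homeomorph.inv_apply, Homeomorph.inv_apply, Homeomorph.symm_apply_eq, hf,
      Homeomorph.apply_symm_apply]

end Pool.Agent.helper30.RandomSubst
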