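import Mathlib
import Pool.Agent.helper30.RandomSubst.Defs
set_option autoImplicit false

/-!
# The automorphism group of the random substitution subshift is not residually finite

The random substitution is `a ↦ {abaa, aaba}`, `b ↦ {abab, baba}`.  Outline of the proof.

* Every point of `X` is cut into four letter tiles `k + 4 ℤ`, the tiles being images of the letters
  of another point `c` of `X` (`exists_Par`); the word `aaaa` occurs only in the middle of
  `abaa|aaba`, so an occurrence of `aaaa` determines the cutting (`Mk_spec`).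
* Complementing any set of tiles `abab ↔ baba` keeps the point in `X`, keeps all occurrences of
  `aaaa` and all the letters `c` (`flip_Par`, `flip_Mk_iff`).
* `X` has no periodic point (`aperiodic`), so long windows of `c` do not reoccur at a small
  distance (`separation`).  Hence for every long window of `c` around an occurrence of `aaaa` the
  full symmetric group of `{0,1}^m` acts on `X` by automorphisms, `m` tiles of letter `b` in the
  window being the bits (`Psi`).
* A finite quotient of a symmetric group that is small compared with the degree kills the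
  alternating group (`kill_alternating`).  The nontrivial automorphism that exchanges
  `abaaaaba|abab` and `abaaaaba|baba` is a finite product of elements of such alternating groups,
  so it is trivial in every finite quotient (`kill_all`).
-/

namespace Pool.Agent.helper30.RandomSubst

/-! ### Segments -/

/-- Recursive description of subwords. -/
def seg (x : ℤ → Bool) : ℤ → ℕ → List Bool
  | _, 0 => []
  | i, n + 1 => x i :: seg x (i + 1) n

lemma ofFn_eq_seg (x : ℤ → Bool) (n : ℕ) : ∀ i : ℤ, (List.ofFn fun j : Fin n => x (i + j)) = seg x i n := by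
  induction n with
  | zero => intro i; simp [seg]
  | succ n ih =>
    intro i
    rw [List.ofFn_succ, seg, ← ih (i + 1)]
    congr 1
    · simp
    · congr 1
      funext j
      congr 1
      simp; ring

lemma mem_X_iff (x : ℤ → Bool) : x ∈ X ↔ ∀ i n, Legal (seg x i n) := by
  unfold X
  simp only [Set.mem_ofPred_eq, ofFn_eq_seg]

lemma seg_length (x : ℤ → Bool) (n : ℕ) : ∀ i : ℤ, (seg x i n).length = n := by
  induction n with
  | zero => intro i; rfl
  | succ n ih => intro i; simp [seg, ih]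

lemma seg_add (x : ℤ → Bool) (n m : ℕ) : ∀ i : ℤ, seg x i (n + m) = seg x i n ++ seg x (i + n) m := by
  induction n with
  | zero => intro i; simp [seg]
  | succ n ih =>
    intro i
    rw [show n + 1 + m = (n + m) + 1 by ring, seg, seg, ih (i + 1)]
    simp only [List.cons_append]
    congr 3
    push_cast; ring

lemma seg_congr (x y : ℤ → Bool) (n : ℕ) : ∀ i j : ℤ, (∀ t : ℕ, t < n → x (i + t) = y (j + t)) →
    seg x i n = seg y j n := by
  induction n with
  | zero => intro i j _; rfl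
  | succ n ih =>
    intro i j h
    rw [seg, seg, ih (i + 1) (j + 1)]
    · have := h 0 (by omega)
      simp at this
      rw [this]
    · intro t ht
      have := h (t + 1) (by omega)
      push_cast at this
      rw [show i + 1 + (t : ℤ) = i + (t + 1) by ring, show j + 1 + (t : ℤ) = j + (t + 1) by ring]
      exact this

lemma seg_infix (x : ℤ → Bool) (i j : ℤ) (n m : ℕ) (h1 : i ≤ j) (h2 : j + m ≤ i + n) :
    seg x j m <:+: seg x i n := by
  obtain ⟨p, hp⟩ : ∃ p : ℕ, j = i + p := ⟨(j - i).toNat, by omega⟩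
  obtain ⟨q, hq⟩ : ∃ q : ℕ, n = p + (m + q) := ⟨n - p - m, by omega⟩
  subst hp
  rw [hq, seg_add, seg_add]
  exact ⟨seg x i p, seg x (i + p + m) q, by simp⟩

lemma Legal.sub {u w : List Bool} (h : Legal w) (hu : u <:+: w) : Legal u := by
  obtain ⟨k, v, hv, hw⟩ := h
  exact ⟨k, v, hv, hu.trans hw⟩

/-- letters of a segment -/
lemma seg_getD (x : ℤ → Bool) (n : ℕ) : ∀ (i : ℤ) (t : ℕ), t < n → (seg x i n).getD t false = x (i + t) := by
  induction n with
  | zero => intro i t ht; omega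
  | succ n ih =>
    intro i t ht
    cases t with
    | zero => simp [seg]
    | succ t =>
      rw [seg, List.getD_cons_succ, ih (i + 1) t (by omega)]
      congr 1
      push_cast; ring

/-- The four letter word at position `k`. -/
def T4 (x : ℤ → Bool) (k : ℤ) : List Bool := [x k, x (k + 1), x (k + 2), x (k + 3)]

lemma seg_four (x : ℤ → Bool) (k : ℤ) (n : ℕ) : seg x k (4 * (n + 1)) = T4 x k ++ seg x (k + 4) (4 * n) := by
  rw [show 4 * (n + 1) = 4 + 4 * n by ring, seg_add]
  congr 1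
  simp only [seg, T4]
  congr 2
  rw [show k + 1 + 1 = k + 2 by ring, show k + 2 + 1 = k + 3 by ring]

lemma seg_mem_substWord (x c : ℤ → Bool) (k : ℤ) (n : ℕ) : ∀ p : ℤ,
    (∀ j, p ≤ j → j < p + n → T4 x (k + 4 * j) ∈ subst (c j)) →
    seg x (k + 4 * p) (4 * n) ∈ substWord (seg c p n) := by
  induction n with
  | zero => intro p _; simp [seg, substWord]
  | succ n ih =>
    intro p h
    rw [seg_four, seg, substWord]
    refine Set.mem_image2_of_mem (h p le_rfl (by push_cast; omega)) ?_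
    have := ih (p + 1) (fun j h1 h2 => h j (by omega) (by push_cast; omega))
    rw [show k + 4 * (p + 1) = k + 4 * p + 4 by ring] at this
    exact this

lemma subst_nonempty (c : Bool) : (subst c).Nonempty := by
  cases c
  · exact ⟨_, Or.inl rfl⟩
  · exact ⟨_, Or.inl rfl⟩

lemma substWord_nonempty (u : List Bool) : (substWord u).Nonempty := by
  induction u with
  | nil => exact ⟨[], rfl⟩
  | cons c u ih => exact (subst_nonempty c).image2 ih

lemma substWord_append (u v A B : List Bool) (hA : A ∈ substWord u) (hB : B ∈ substWord v) :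
    A ++ B ∈ substWord (u ++ v) := by
  induction u generalizing A with
  | nil =>
    have : A = [] := hA
    subst this
    simpa using hB
  | cons c u ih =>
    obtain ⟨P, hP, Q, hQ, rfl⟩ := hA
    simp only [List.cons_append, List.append_assoc]
    exact ⟨P, hP, Q ++ B, ih Q hQ, rfl⟩

lemma legal_of_subst {u A : List Bool} (hu : Legal u) (hA : A ∈ substWord u) : Legal A := by
  obtain ⟨k, v, hv, s, t, rfl⟩ := hu
  obtain ⟨S, hS⟩ := substWord_nonempty s
  obtain ⟨T, hT⟩ := substWord_nonempty t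
  refine ⟨k + 1, S ++ A ++ T, ?_, S, T, rfl⟩
  simp only [iter, Set.mem_iUnion]
  exact ⟨_, hv, substWord_append _ _ _ _ (substWord_append _ _ _ _ hS hA) hT⟩

/-- Local form: blow-up of a legal segment is legal. -/
lemma legal_seg (x c : ℤ → Bool) (k p : ℤ) (n : ℕ) (hc : Legal (seg c p n))
    (h : ∀ j, p ≤ j → j < p + n → T4 x (k + 4 * j) ∈ subst (c j)) :
    Legal (seg x (k + 4 * p) (4 * n)) :=
  legal_of_subst hc (seg_mem_substWord x c k n p h)

lemma mem_X_of_tiles (x c : ℤ → Bool) (k : ℤ) (hc : c ∈ X)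
    (h : ∀ j, T4 x (k + 4 * j) ∈ subst (c j)) : x ∈ X := by
  rw [mem_X_iff] at hc ⊢
  intro i n
  obtain ⟨p, hp⟩ : ∃ p : ℤ, p = (i - k) / 4 := ⟨_, rfl⟩
  obtain ⟨N, hN⟩ : ∃ N : ℕ, N = n + 4 := ⟨_, rfl⟩
  refine (legal_seg x c k p N (hc p N) (fun j _ _ => h j)).sub (seg_infix x _ _ _ _ ?_ ?_)
  · omega
  · push_cast; omega


/-! ### Parsing -/

/-- The letter whose image a tile starting at `k` is (parity of the number of `b`s). -/
def lt (x : ℤ → Bool) (k : ℤ) : Bool := !((x k).xor ((x (k + 1)).xor ((x (k + 2)).xor (x (k + 3)))))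

lemma tile_cases {x : ℤ → Bool} {k : ℤ} {c : Bool} (h : T4 x k ∈ subst c) :
    (c = false ∧ x k = false ∧ x (k + 1) = true ∧ x (k + 2) = false ∧ x (k + 3) = false) ∨
    (c = false ∧ x k = false ∧ x (k + 1) = false ∧ x (k + 2) = true ∧ x (k + 3) = false) ∨
    (c = true ∧ x k = false ∧ x (k + 1) = true ∧ x (k + 2) = false ∧ x (k + 3) = true) ∨
    (c = true ∧ x k = true ∧ x (k + 1) = false ∧ x (k + 2) = true ∧ x (k + 3) = false) := by
  cases c
  · rcases h with h | h
    · simp only [T4, List.cons.injEq, and_true] at h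
      exact Or.inl ⟨rfl, h⟩
    · simp only [T4, Set.mem_singleton_iff, List.cons.injEq, and_true] at h
      exact Or.inr (Or.inl ⟨rfl, h⟩)
  · rcases h with h | h
    · simp only [T4, List.cons.injEq, and_true] at h
      exact Or.inr (Or.inr (Or.inl ⟨rfl, h⟩))
    · simp only [T4, Set.mem_singleton_iff, List.cons.injEq, and_true] at h
      exact Or.inr (Or.inr (Or.inr ⟨rfl, h⟩))

lemma lt_eq_of_tile {x : ℤ → Bool} {k : ℤ} {c : Bool} (h : T4 x k ∈ subst c) : lt x k = c := by
  rcases tile_cases h with ⟨rfl, h0, h1, h2, h3⟩ | ⟨rfl, h0, h1, h2, h3⟩ | ⟨rfl, h0, h1, h2, h3⟩ |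
    ⟨rfl, h0, h1, h2, h3⟩ <;> simp [lt, h0, h1, h2, h3]

/-- function attached to a list -/
def fn (u : List Bool) : ℤ → Bool := fun i => u.getD i.toNat false

lemma substWord_tiles (u A : List Bool) (h : A ∈ substWord u) :
    A.length = 4 * u.length ∧ ∀ i : ℕ, i < u.length → T4 (fn A) (4 * i) ∈ subst (fn u i) := by
  induction u generalizing A with
  | nil =>
    have : A = [] := h
    subst this
    simp
  | cons c u ih =>
    obtain ⟨P, hP, Q, hQ, rfl⟩ := h
    obtain ⟨hl, ht⟩ := ih Q hQ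
    have hP4 : ∃ p q r s : Bool, P = [p, q, r, s] := by
      cases c
      · rcases hP with h | h
        · exact ⟨_, _, _, _, h⟩
        · exact ⟨_, _, _, _, h⟩
      · rcases hP with h | h
        · exact ⟨_, _, _, _, h⟩
        · exact ⟨_, _, _, _, h⟩
    obtain ⟨p, q, r, s, rfl⟩ := hP4
    refine ⟨by simp [hl]; ring, ?_⟩
    intro i hi
    cases i with
    | zero => simpa [T4, fn] using hP
    | succ i =>
      have := ht i (by simpa using hi)
      have e : ∀ t : ℕ, t < 4 → fn ([p, q, r, s] ++ Q) (4 * ((i + 1 : ℕ) : ℤ) + t) = fn Q (4 * (i : ℤ) + t) := by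
        intro t ht
        simp only [fn]
        rw [show (4 * ((i + 1 : ℕ) : ℤ) + (t : ℤ)).toNat = (4 * (i : ℤ) + t).toNat + 4 by omega]
        simp
      have e' : T4 (fn ([p, q, r, s] ++ Q)) (4 * ((i + 1 : ℕ) : ℤ)) = T4 (fn Q) (4 * (i : ℤ)) := by
        simp only [T4]
        have e0 := e 0 (by norm_num)
        have e1 := e 1 (by norm_num)
        have e2 := e 2 (by norm_num)
        have e3 := e 3 (by norm_num)
        push_cast at e0 e1 e2 e3 ⊢
        simp only [add_zero] at e0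
        rw [e0, e1, e2, e3]
      simp only [] at e' ⊢
      rw [e']
      have : fn (c :: u) ((i + 1 : ℕ) : ℤ) = fn u (i : ℤ) := by
        simp only [fn]
        rw [show (((i + 1 : ℕ) : ℤ)).toNat = (i : ℤ).toNat + 1 by omega]
        simp
      rw [this]
      assumption

lemma seg_fn (u : List Bool) : seg (fn u) 0 u.length = u := by
  apply List.ext_getElem
  · rw [seg_length]
  · intro i h1 h2
    have := seg_getD (fn u) u.length 0 i h2
    rw [List.getD_eq_getElem _ _ h1] at this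
    rw [this]
    simp [fn, h2]

/-- Window version of the parse. -/
def P (x : ℤ → Bool) (k : ℤ) (N : ℕ) : Prop :=
  (∀ j : ℤ, -(N : ℤ) ≤ k + 4 * j → k + 4 * j + 4 ≤ N → T4 x (k + 4 * j) ∈ subst (lt x (k + 4 * j))) ∧
  (∀ (p : ℤ) (n : ℕ), -(N : ℤ) ≤ k + 4 * p → k + 4 * (p + n) ≤ N →
    Legal (seg (fun j => lt x (k + 4 * j)) p n))

lemma P_mono (x : ℤ → Bool) (k : ℤ) {N M : ℕ} (h : N ≤ M) (hP : P x k M) : P x k N :=
  ⟨fun j h1 h2 => hP.1 j (by omega) (by omega), fun p n h1 h2 => hP.2 p n (by omega) (by omega)⟩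

lemma exists_P (x : ℤ → Bool) (hx : x ∈ X) (N : ℕ) (hN : 1 ≤ N) :
    ∃ k : ℤ, 0 ≤ k ∧ k < 4 ∧ P x k N := by
  rw [mem_X_iff] at hx
  obtain ⟨m, u', hu', s, t, hst⟩ := hx (-N) (2 * N)
  have hlen : u'.length = s.length + 2 * N + t.length := by
    rw [← hst]; simp [seg_length]; ring
  cases m with
  | zero =>
    exfalso
    have : u' = [false] := hu'
    rw [this] at hlen
    simp at hlen
    omega
  | succ m =>
    simp only [iter, Set.mem_iUnion] at hu'
    obtain ⟨v, hv, huv⟩ := hu'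
    obtain ⟨hl, htile⟩ := substWord_tiles v u' huv
    have hval : ∀ l : ℤ, -(N : ℤ) ≤ l → l < N → x l = fn u' (l + N + s.length) := by
      intro l h1 h2
      obtain ⟨a, ha⟩ : ∃ a : ℕ, l = -N + a := ⟨(l + N).toNat, by omega⟩
      have h3 := seg_getD x (2 * N) (-N) a (by omega)
      rw [ha, ← h3]
      simp only [fn]
      rw [show (-(N : ℤ) + a + N + s.length).toNat = s.length + a by omega, ← hst]
      rw [List.append_assoc, List.getD_append_right _ _ _ _ (by omega)]
      rw [List.getD_append _ _ _ _ (by rw [seg_length]; omega)]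
      congr 1
      omega
    obtain ⟨k, hk⟩ : ∃ k : ℤ, k = (-(N + s.length : ℤ)) % 4 := ⟨_, rfl⟩
    obtain ⟨q, hq⟩ : ∃ q : ℤ, k + N + s.length = 4 * q := ⟨(k + N + s.length) / 4, by omega⟩
    have tileEq : ∀ j : ℤ, -(N : ℤ) ≤ k + 4 * j → k + 4 * j + 4 ≤ N →
        0 ≤ q + j ∧ q + j < v.length ∧ T4 x (k + 4 * j) = T4 (fn u') (4 * (q + j)) ∧
          T4 x (k + 4 * j) ∈ subst (fn v (q + j)) := by
      intro j h1 h2
      have h0 : 0 ≤ q + j := by omega
      have h0' : q + j < v.length := by omega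
      have e : T4 x (k + 4 * j) = T4 (fn u') (4 * (q + j)) := by
        simp only [T4]
        rw [hval _ (by omega) (by omega), hval (k + 4 * j + 1) (by omega) (by omega),
          hval (k + 4 * j + 2) (by omega) (by omega), hval (k + 4 * j + 3) (by omega) (by omega)]
        rw [show k + 4 * j + N + s.length = 4 * (q + j) by omega,
          show k + 4 * j + 1 + N + s.length = 4 * (q + j) + 1 by omega,
          show k + 4 * j + 2 + N + s.length = 4 * (q + j) + 2 by omega,
          show k + 4 * j + 3 + N + s.length = 4 * (q + j) + 3 by omega]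
      refine ⟨h0, h0', e, ?_⟩
      rw [e]
      obtain ⟨i, hi⟩ : ∃ i : ℕ, q + j = i := ⟨(q + j).toNat, by omega⟩
      rw [hi]
      exact htile i (by omega)
    refine ⟨k, by omega, by omega, ?_, ?_⟩
    · intro j h1 h2
      obtain ⟨h3, h4, h5, h6⟩ := tileEq j h1 h2
      rw [lt_eq_of_tile h6]
      exact h6
    · intro p n h1 h2
      rcases Nat.eq_zero_or_pos n with rfl | hn
      · exact ⟨0, [false], rfl, by simp [seg]⟩
      have hq0 := tileEq p h1 (by omega)
      have hq1 := tileEq (p + n - 1) (by omega) (by omega)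
      have : seg (fun j => lt x (k + 4 * j)) p n = seg (fn v) (q + p) n := by
        apply seg_congr
        intro t ht
        obtain ⟨h3, h4, h5, h6⟩ := tileEq (p + t) (by omega) (by omega)
        rw [lt_eq_of_tile h6]
        congr 1
        ring
      rw [this]
      refine Legal.sub (w := v) ⟨m, v, hv, List.infix_refl _⟩ ?_
      rw [← seg_fn v]
      rw [show fn (seg (fn v) 0 v.length) = fn v by rw [seg_fn]]
      apply seg_infix
      · omega
      · omega

/-- `Par x k c`: cutting `x` at the positions `k + 4 ℤ` presents it as an image of `c ∈ X`. -/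
def Par (x : ℤ → Bool) (k : ℤ) (c : ℤ → Bool) : Prop :=
  (∀ j : ℤ, T4 x (k + 4 * j) ∈ subst (c j)) ∧ c ∈ X

lemma exists_Par (x : ℤ → Bool) (hx : x ∈ X) : ∃ k c, Par x k c := by
  have : ∃ k : ℤ, ∀ N : ℕ, P x k N := by
    by_contra hcon
    push Not at hcon
    obtain ⟨N0, h0⟩ := hcon 0
    obtain ⟨N1, h1⟩ := hcon 1
    obtain ⟨N2, h2⟩ := hcon 2
    obtain ⟨N3, h3⟩ := hcon 3
    obtain ⟨k, hk0, hk4, hk⟩ := exists_P x hx (N0 + N1 + N2 + N3 + 1) (by omega)
    have : k = 0 ∨ k = 1 ∨ k = 2 ∨ k = 3 := by omega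
    rcases this with rfl | rfl | rfl | rfl
    · exact h0 (P_mono x _ (by omega) hk)
    · exact h1 (P_mono x _ (by omega) hk)
    · exact h2 (P_mono x _ (by omega) hk)
    · exact h3 (P_mono x _ (by omega) hk)
  obtain ⟨k, hk⟩ := this
  refine ⟨k, fun j => lt x (k + 4 * j), ?_, ?_⟩
  · intro j
    exact (hk ((k + 4 * j).natAbs + 4)).1 j (by omega) (by omega)
  · rw [mem_X_iff]
    intro i n
    exact (hk ((k + 4 * i).natAbs + (k + 4 * (i + n)).natAbs)).2 i n (by omega) (by omega)

lemma mem_X_shift (x : ℤ → Bool) (p : ℤ) (hx : x ∈ X) : (fun j => x (j + p)) ∈ X := by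
  rw [mem_X_iff] at hx ⊢
  intro i n
  rw [seg_congr (fun j => x (j + p)) x n i (i + p) (fun t _ => by
    show x (i + t + p) = x (i + p + t)
    congr 1; ring)]
  exact hx _ _

lemma Par.shift {x : ℤ → Bool} {k : ℤ} {c : ℤ → Bool} (h : Par x k c) (p : ℤ) :
    Par x (k + 4 * p) (fun j => c (j + p)) := by
  refine ⟨fun j => ?_, mem_X_shift c p h.2⟩
  have := h.1 (j + p)
  rw [show k + 4 * p + 4 * j = k + 4 * (j + p) by ring]
  exact this

lemma Par.mem {x : ℤ → Bool} {k : ℤ} {c : ℤ → Bool} (h : Par x k c) : x ∈ X :=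
  mem_X_of_tiles x c k h.2 h.1


/-! ### Elementary combinatorics of points of `X` -/

lemma exists_offset (k n : ℤ) : ∃ j o : ℤ, n = k + 4 * j + o ∧ 0 ≤ o ∧ o < 4 :=
  ⟨(n - k) / 4, (n - k) % 4, by omega, by omega, by omega⟩

lemma no_bbb (x : ℤ → Bool) (hx : x ∈ X) (n : ℤ) :
    ¬ (x n = true ∧ x (n + 1) = true ∧ x (n + 2) = true) := by
  rintro ⟨h0, h1, h2⟩
  obtain ⟨k, c, h⟩ := exists_Par x hx
  obtain ⟨j, o, rfl, ho0, ho4⟩ := exists_offset k n
  have t1 := tile_cases (h.1 j)
  have t2 := tile_cases (h.1 (j + 1))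
  rw [show k + 4 * (j + 1) = k + 4 * j + 4 by ring] at t2
  generalize k + 4 * j = K at *
  have : o = 0 ∨ o = 1 ∨ o = 2 ∨ o = 3 := by omega
  rcases this with rfl | rfl | rfl | rfl
  · simp only [add_zero] at h0 h1 h2
    simp_all
  · rw [show K + 1 + 1 = K + 2 by ring] at h1
    rw [show K + 1 + 2 = K + 3 by ring] at h2
    simp_all
  · rw [show K + 2 + 1 = K + 3 by ring] at h1
    rw [show K + 2 + 2 = K + 4 by ring] at h2
    simp_all
  · rw [show K + 3 + 1 = K + 4 by ring] at h1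
    rw [show K + 3 + 2 = K + 4 + 1 by ring] at h2
    simp_all

lemma no_aaaaa (x : ℤ → Bool) (hx : x ∈ X) (n : ℤ) :
    ¬ (x n = false ∧ x (n + 1) = false ∧ x (n + 2) = false ∧ x (n + 3) = false ∧ x (n + 4) = false) := by
  rintro ⟨h0, h1, h2, h3, h4⟩
  obtain ⟨k, c, h⟩ := exists_Par x hx
  obtain ⟨j, o, rfl, ho0, ho4⟩ := exists_offset k n
  have t1 := tile_cases (h.1 j)
  have t2 := tile_cases (h.1 (j + 1))
  rw [show k + 4 * (j + 1) = k + 4 * j + 4 by ring] at t2
  generalize k + 4 * j = K at *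
  have : o = 0 ∨ o = 1 ∨ o = 2 ∨ o = 3 := by omega
  rcases this with rfl | rfl | rfl | rfl
  · simp only [add_zero] at h0 h1 h2 h3 h4
    simp_all
  · rw [show K + 1 + 1 = K + 2 by ring] at h1
    rw [show K + 1 + 2 = K + 3 by ring] at h2
    rw [show K + 1 + 3 = K + 4 by ring] at h3
    rw [show K + 1 + 4 = K + 4 + 1 by ring] at h4
    simp_all
  · rw [show K + 2 + 1 = K + 3 by ring] at h1
    rw [show K + 2 + 2 = K + 4 by ring] at h2
    rw [show K + 2 + 3 = K + 4 + 1 by ring] at h3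
    rw [show K + 2 + 4 = K + 4 + 2 by ring] at h4
    simp_all
  · rw [show K + 3 + 1 = K + 4 by ring] at h1
    rw [show K + 3 + 2 = K + 4 + 1 by ring] at h2
    rw [show K + 3 + 3 = K + 4 + 2 by ring] at h3
    rw [show K + 3 + 4 = K + 4 + 3 by ring] at h4
    simp_all

/-- `n` is a marker position: `x` carries `aaaa` at `n + 2`. -/
def Mk (x : ℤ → Bool) (n : ℤ) : Prop :=
  x (n + 2) = false ∧ x (n + 3) = false ∧ x (n + 4) = false ∧ x (n + 5) = false

lemma Mk_spec {x : ℤ → Bool} {k : ℤ} {c : ℤ → Bool} (h : Par x k c) {n : ℤ} (hn : Mk x n) :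
    ∃ j, n = k + 4 * j ∧ c j = false ∧ c (j + 1) = false ∧
      x n = false ∧ x (n + 1) = true ∧ x (n + 6) = true ∧ x (n + 7) = false := by
  obtain ⟨h0, h1, h2, h3⟩ := hn
  obtain ⟨j, o, hno, ho0, ho4⟩ := exists_offset k (n + 2)
  have t1 := tile_cases (h.1 j)
  have t2 := tile_cases (h.1 (j + 1))
  rw [show k + 4 * (j + 1) = k + 4 * j + 4 by ring] at t2
  generalize hK : k + 4 * j = K at *
  have : o = 0 ∨ o = 1 ∨ o = 2 ∨ o = 3 := by omega
  rcases this with rfl | rfl | rfl | rfl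
  · exfalso
    have e : n = K - 2 := by omega
    subst e
    rw [show K - 2 + 2 = K by ring] at h0
    rw [show K - 2 + 3 = K + 1 by ring] at h1
    rw [show K - 2 + 4 = K + 2 by ring] at h2
    rw [show K - 2 + 5 = K + 3 by ring] at h3
    simp_all
  · exfalso
    have e : n = K - 1 := by omega
    subst e
    rw [show K - 1 + 2 = K + 1 by ring] at h0
    rw [show K - 1 + 3 = K + 2 by ring] at h1
    rw [show K - 1 + 4 = K + 3 by ring] at h2
    rw [show K - 1 + 5 = K + 4 by ring] at h3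
    simp_all
  · have e : n = K := by omega
    subst e
    refine ⟨j, hK.symm, ?_⟩
    rw [show n + 5 = n + 4 + 1 by ring] at h3
    rw [show n + 6 = n + 4 + 2 by ring, show n + 7 = n + 4 + 3 by ring]
    simp_all
  · exfalso
    have e : n = K + 1 := by omega
    subst e
    rw [show K + 1 + 2 = K + 3 by ring] at h0
    rw [show K + 1 + 3 = K + 4 by ring] at h1
    rw [show K + 1 + 4 = K + 4 + 1 by ring] at h2
    rw [show K + 1 + 5 = K + 4 + 2 by ring] at h3
    simp_all

lemma Par_two {x : ℤ → Bool} {k : ℤ} {c c' : ℤ → Bool} (h : Par x k c) (h' : Par x (k + 2) c') :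
    False := by
  have key : ∀ i : ℤ, (x (k + 4 * i) = false ∧ c i = true ∧ True) ∨
      (x (k + 4 * (i + 1)) = true ∧ c (i + 1) = true ∧ True) := by
    intro i
    have t1 := tile_cases (h.1 i)
    have t2 := tile_cases (h.1 (i + 1))
    have t3 := tile_cases (h'.1 i)
    rw [show k + 4 * (i + 1) = k + 4 * i + 4 by ring] at t2 ⊢
    rw [show k + 2 + 4 * i = k + 4 * i + 2 by ring] at t3
    generalize k + 4 * i = K at *
    rw [show K + 2 + 1 = K + 3 by ring, show K + 2 + 2 = K + 4 by ring, show K + 2 + 3 = K + 4 + 1 by ring] at t3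
    rcases t1 with t1 | t1 | t1 | t1 <;> rcases t2 with t2 | t2 | t2 | t2 <;>
      rcases t3 with t3 | t3 | t3 | t3 <;> simp_all
  by_cases hall : ∀ i : ℤ, x (k + 4 * i) = false ∧ c i = true
  · exact no_bbb c h.2 0 ⟨(hall 0).2, (hall _).2, (hall _).2⟩
  · push Not at hall
    obtain ⟨i, hi⟩ := hall
    have s1 : x (k + 4 * (i + 1)) = true ∧ c (i + 1) = true := by
      rcases key i with ⟨h1, h2, -⟩ | ⟨h1, h2, -⟩
      · exact absurd h2 (hi h1)
      · exact ⟨h1, h2⟩
    have s2 : x (k + 4 * (i + 1 + 1)) = true ∧ c (i + 1 + 1) = true := by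
      rcases key (i + 1) with ⟨h1, h2, -⟩ | ⟨h1, h2, -⟩
      · rw [s1.1] at h1; exact absurd h1 (by simp)
      · exact ⟨h1, h2⟩
    have s3 : x (k + 4 * (i + 1 + 1 + 1)) = true ∧ c (i + 1 + 1 + 1) = true := by
      rcases key (i + 1 + 1) with ⟨h1, h2, -⟩ | ⟨h1, h2, -⟩
      · rw [s2.1] at h1; exact absurd h1 (by simp)
      · exact ⟨h1, h2⟩
    refine no_bbb c h.2 (i + 1) ⟨s1.2, s2.2, ?_⟩
    rw [show i + 1 + 2 = i + 1 + 1 + 1 by ring]
    exact s3.2

lemma aperiodic (p : ℕ) : 0 < p → ∀ x ∈ X, ¬ ∀ i : ℤ, x (i + p) = x i := by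
  induction p using Nat.strong_induction_on with
  | _ p ih =>
    intro hp x hx hper
    obtain ⟨k, c, h⟩ := exists_Par x hx
    have hT : ∀ l : ℤ, T4 x (l + p) = T4 x l := by
      intro l
      simp only [T4]
      rw [hper l, show l + p + 1 = l + 1 + p by ring, show l + p + 2 = l + 2 + p by ring,
        show l + p + 3 = l + 3 + p by ring, hper, hper, hper]
    have hshift : ∀ {k : ℤ} {c : ℤ → Bool}, Par x k c → Par x (k + p) c := by
      intro k c h
      refine ⟨fun j => ?_, h.2⟩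
      rw [show k + p + 4 * j = k + 4 * j + p by ring, hT]
      exact h.1 j
    have h4 : p % 4 = 0 ∨ p % 4 = 1 ∨ p % 4 = 2 ∨ p % 4 = 3 := by omega
    rcases h4 with h4 | h4 | h4 | h4
    · obtain ⟨q, hq⟩ : ∃ q, p = 4 * q := ⟨p / 4, by omega⟩
      refine ih q (by omega) (by omega) c h.2 (fun i => ?_)
      rw [← lt_eq_of_tile (h.1 i), ← lt_eq_of_tile (h.1 (i + q))]
      rw [show k + 4 * (i + (q : ℤ)) = k + 4 * i + p by rw [hq]; push_cast; ring]
      simp only [lt]
      rw [hper, show k + 4 * i + p + 1 = k + 4 * i + 1 + p by ring, hper,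
        show k + 4 * i + p + 2 = k + 4 * i + 2 + p by ring, hper,
        show k + 4 * i + p + 3 = k + 4 * i + 3 + p by ring, hper]
    · have h2 := hshift (hshift h)
      obtain ⟨q, hq⟩ : ∃ q : ℤ, k + p + p = k + 2 + 4 * q := ⟨((p : ℤ) + p - 2) / 4, by omega⟩
      rw [hq] at h2
      have h3 := h2.shift (-q)
      rw [show k + 2 + 4 * q + 4 * -q = k + 2 by ring] at h3
      exact Par_two h h3
    · have h2 := hshift h
      obtain ⟨q, hq⟩ : ∃ q : ℤ, k + p = k + 2 + 4 * q := ⟨((p : ℤ) - 2) / 4, by omega⟩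
      rw [hq] at h2
      have h3 := h2.shift (-q)
      rw [show k + 2 + 4 * q + 4 * -q = k + 2 by ring] at h3
      exact Par_two h h3
    · have h2 := hshift (hshift h)
      obtain ⟨q, hq⟩ : ∃ q : ℤ, k + p + p = k + 2 + 4 * q := ⟨((p : ℤ) + p - 2) / 4, by omega⟩
      rw [hq] at h2
      have h3 := h2.shift (-q)
      rw [show k + 2 + 4 * q + 4 * -q = k + 2 by ring] at h3
      exact Par_two h h3


/-! ### Topology -/

lemma isOpen_of_window (S : Set (ℤ → Bool)) (W : Finset ℤ)
    (h : ∀ x y : ℤ → Bool, (∀ i ∈ W, x i = y i) → x ∈ S → y ∈ S) : IsOpen S := by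
  rw [isOpen_iff_forall_mem_open]
  intro x hx
  refine ⟨⋂ i ∈ W, {y | y i = x i}, ?_, ?_, ?_⟩
  · intro y hy
    simp only [Set.mem_iInter, Set.mem_ofPred_eq] at hy
    exact h x y (fun i hi => (hy i hi).symm) hx
  · refine isOpen_biInter_finset (fun i _ => ?_)
    exact (isOpen_discrete ({x i} : Set Bool)).preimage (continuous_apply (A := fun _ : ℤ => Bool) i)
  · simp

lemma isClosed_of_window (S : Set (ℤ → Bool)) (W : Finset ℤ)
    (h : ∀ x y : ℤ → Bool, (∀ i ∈ W, x i = y i) → x ∈ S → y ∈ S) : IsClosed S := by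
  rw [← isOpen_compl_iff]
  refine isOpen_of_window _ W (fun x y hxy hx hy => hx (h y x (fun i hi => (hxy i hi).symm) hy))

lemma continuous_of_window (F : (ℤ → Bool) → Bool) (W : Finset ℤ)
    (h : ∀ x y : ℤ → Bool, (∀ i ∈ W, x i = y i) → F x = F y) : Continuous F := by
  rw [continuous_discrete_rng]
  intro b
  refine isOpen_of_window _ W (fun x y hxy hx => ?_)
  simp only [Set.mem_preimage, Set.mem_singleton_iff] at hx ⊢
  rw [← h x y hxy, hx]

lemma isClosed_X : IsClosed X := by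
  have : X = ⋂ i : ℤ, ⋂ n : ℕ, {x | Legal (seg x i n)} := by
    ext x
    simp only [mem_X_iff, Set.mem_iInter, Set.mem_ofPred_eq]
  rw [this]
  refine isClosed_iInter (fun i => isClosed_iInter (fun n => ?_))
  refine isClosed_of_window _ (Finset.Ico i (i + n)) (fun x y hxy hx => ?_)
  simp only [Set.mem_ofPred_eq] at hx ⊢
  rw [seg_congr y x n i i (fun t ht => (hxy _ (by simp; omega)).symm)]
  exact hx

lemma separation_one (p : ℕ) (hp : 0 < p) :
    ∃ K : ℕ, ∀ c ∈ X, ∃ j : ℤ, -(K : ℤ) ≤ j ∧ j ≤ K ∧ c j ≠ c (j + p) := by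
  by_contra hcon
  push Not at hcon
  let C : ℕ → Set (ℤ → Bool) := fun K => {c | c ∈ X ∧ ∀ j : ℤ, -(K : ℤ) ≤ j → j ≤ K → c j = c (j + p)}
  have hC : ∀ K, IsClosed (C K) := by
    intro K
    refine isClosed_X.inter ?_
    refine isClosed_of_window _ (Finset.Icc (-(K : ℤ)) (K + p)) (fun x y hxy hx => ?_)
    intro j h1 h2
    rw [← hxy j (by simp; omega), ← hxy (j + p) (by simp; omega)]
    exact hx j h1 h2
  obtain ⟨c, hc⟩ := IsCompact.nonempty_iInter_of_sequence_nonempty_isCompact_isClosed C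
    (fun K c hc => ⟨hc.1, fun j h1 h2 => hc.2 j (by push_cast; omega) (by push_cast; omega)⟩)
    (fun K => hcon K) (hC 0).isCompact hC
  simp only [Set.mem_iInter] at hc
  refine aperiodic p hp c (hc 0).1 (fun i => ?_)
  exact ((hc i.natAbs).2 i (by omega) (by omega)).symm

lemma separation (R : ℕ) :
    ∃ K : ℕ, ∀ c ∈ X, ∀ p : ℕ, 0 < p → p ≤ R → ∃ j : ℤ, -(K : ℤ) ≤ j ∧ j ≤ K ∧ c j ≠ c (j + p) := by
  induction R with
  | zero => exact ⟨0, fun c _ p h1 h2 => by omega⟩
  | succ R ih =>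
    obtain ⟨K, hK⟩ := ih
    obtain ⟨K', hK'⟩ := separation_one (R + 1) (by omega)
    refine ⟨K + K', fun c hc p h1 h2 => ?_⟩
    rcases Nat.lt_or_ge R p with h | h
    · obtain rfl : p = R + 1 := by omega
      obtain ⟨j, h3, h4, h5⟩ := hK' c hc
      exact ⟨j, by push_cast; omega, by push_cast; omega, h5⟩
    · obtain ⟨j, h3, h4, h5⟩ := hK c hc p h1 h
      exact ⟨j, by push_cast; omega, by push_cast; omega, h5⟩

/-! ### Flipping tiles of letter `b` -/

/-- `x` with the letters in `δ` complemented. -/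
def flp (x δ : ℤ → Bool) : ℤ → Bool := fun l => (x l).xor (δ l)

/-- `δ` complements whole tiles, all of them images of `b`. -/
def Good (n : ℤ) (c δ : ℤ → Bool) : Prop :=
  ∀ j : ℤ, (∀ s : ℤ, 0 ≤ s → s < 4 → δ (n + 4 * j + s) = false) ∨
    (c j = true ∧ ∀ s : ℤ, 0 ≤ s → s < 4 → δ (n + 4 * j + s) = true)

lemma flip_Par {x δ c : ℤ → Bool} {n : ℤ} (h : Par x n c) (hδ : Good n c δ) : Par (flp x δ) n c := by
  refine ⟨fun j => ?_, h.2⟩
  have ht := tile_cases (h.1 j)
  have hm := h.1 j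
  rcases hδ j with h1 | ⟨h1, h2⟩
  · have e : T4 (flp x δ) (n + 4 * j) = T4 x (n + 4 * j) := by
      have e0 := h1 0 (by norm_num) (by norm_num)
      rw [add_zero] at e0
      simp only [T4, flp, e0, h1 1 (by norm_num) (by norm_num), h1 2 (by norm_num) (by norm_num),
        h1 3 (by norm_num) (by norm_num), Bool.xor_false]
    rw [e]; exact hm
  · have e0 := h2 0 (by norm_num) (by norm_num)
    rw [add_zero] at e0
    simp only [T4, flp, e0, h2 1 (by norm_num) (by norm_num), h2 2 (by norm_num) (by norm_num),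
        h2 3 (by norm_num) (by norm_num), Bool.xor_true]
    rw [h1] at ht ⊢
    rcases ht with ht | ht | ht | ht
    · simp at ht
    · simp at ht
    · simp only [ht, Bool.not_true, Bool.not_false]
      exact Or.inr rfl
    · simp only [ht, Bool.not_true, Bool.not_false]
      exact Or.inl rfl

lemma flip_Mk {x δ c : ℤ → Bool} {n : ℤ} (h : Par x n c) (hδ : Good n c δ) (k : ℤ) (hk : Mk x k) :
    Mk (flp x δ) k := by
  obtain ⟨j, rfl, h1, h2, -⟩ := Mk_spec h hk
  have d1 : ∀ s : ℤ, 0 ≤ s → s < 4 → δ (n + 4 * j + s) = false := by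
    rcases hδ j with h3 | h3
    · exact h3
    · rw [h1] at h3; simp at h3
  have d2 : ∀ s : ℤ, 0 ≤ s → s < 4 → δ (n + 4 * (j + 1) + s) = false := by
    rcases hδ (j + 1) with h3 | h3
    · exact h3
    · rw [h2] at h3; simp at h3
  have e4 := d2 0 (by norm_num) (by norm_num)
  have e5 := d2 1 (by norm_num) (by norm_num)
  rw [show n + 4 * (j + 1) + 0 = n + 4 * j + 4 by ring] at e4
  rw [show n + 4 * (j + 1) + 1 = n + 4 * j + 5 by ring] at e5
  obtain ⟨m0, m1, m2, m3⟩ := hk
  refine ⟨?_, ?_, ?_, ?_⟩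
  · simp only [flp, m0, d1 2 (by norm_num) (by norm_num), Bool.xor_false]
  · simp only [flp, m1, d1 3 (by norm_num) (by norm_num), Bool.xor_false]
  · simp only [flp, m2, e4, Bool.xor_false]
  · simp only [flp, m3, e5, Bool.xor_false]

lemma flp_flp (x δ : ℤ → Bool) : flp (flp x δ) δ = x := by
  funext l
  simp [flp]

lemma flip_Mk_iff {x δ c : ℤ → Bool} {n : ℤ} (h : Par x n c) (hδ : Good n c δ) (k : ℤ) :
    Mk (flp x δ) k ↔ Mk x k := by
  refine ⟨fun hk => ?_, flip_Mk h hδ k⟩
  have := flip_Mk (flip_Par h hδ) hδ k hk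
  rwa [flp_flp] at this

lemma lt_of_Par {x c : ℤ → Bool} {n : ℤ} (h : Par x n c) (j : ℤ) : lt x (n + 4 * j) = c j :=
  lt_eq_of_tile (h.1 j)

lemma Par_of_Mk {x : ℤ → Bool} (hx : x ∈ X) {n : ℤ} (hn : Mk x n) :
    Par x n (fun j => lt x (n + 4 * j)) := by
  obtain ⟨k, c, h⟩ := exists_Par x hx
  obtain ⟨j, rfl, -⟩ := Mk_spec h hn
  have h2 := h.shift j
  have : (fun i => lt x (k + 4 * j + 4 * i)) = fun i => c (i + j) := by
    funext i
    exact lt_of_Par h2 i
  rw [this]
  exact h2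

lemma Mk_cong {x : ℤ → Bool} (hx : x ∈ X) {n k : ℤ} (hn : Mk x n) (hk : Mk x k) :
    ∃ j, k = n + 4 * j := by
  obtain ⟨j, h, -⟩ := Mk_spec (Par_of_Mk hx hn) hk
  exact ⟨j, h⟩

/-- Centres: markers whose sequence of letters is in `E`. -/
def Cen (E : Set (ℤ → Bool)) (x : ℤ → Bool) (n : ℤ) : Prop :=
  Mk x n ∧ (fun j => lt x (n + 4 * j)) ∈ E

/-- Data for an action of a symmetric group. -/
structure Data (m : ℕ) where
  E : Set (ℤ → Bool)
  e : Fin m → ℤ
  K : ℕ
  window : ∀ c c' : ℤ → Bool, (∀ j : ℤ, -(K : ℤ) ≤ j → j ≤ K → c j = c' j) → c ∈ E → c' ∈ E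
  isb : ∀ c ∈ E, ∀ i, c (e i) = true
  inj : Function.Injective e
  sep : ∀ x ∈ X, ∀ n n' : ℤ, Cen E x n → Cen E x n' → ∀ i i', n + 4 * e i = n' + 4 * e i' → n = n'

variable {m : ℕ}

/-- the bits at a centre -/
def bits (d : Data m) (x : ℤ → Bool) (n : ℤ) : Fin m → Bool := fun i => x (n + 4 * d.e i + 1)

/-- the set of letters to be complemented -/
def dlP (d : Data m) (π : Equiv.Perm (Fin m → Bool)) (x : ℤ → Bool) (l : ℤ) : Prop :=
  ∃ n, Cen d.E x n ∧ ∃ i : Fin m, ∃ s : ℤ, 0 ≤ s ∧ s < 4 ∧ l = n + 4 * d.e i + s ∧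
    π (bits d x n) i ≠ bits d x n i

open Classical in
noncomputable def dl (d : Data m) (π : Equiv.Perm (Fin m → Bool)) (x : ℤ → Bool) (l : ℤ) : Bool :=
  decide (dlP d π x l)

/-- the action -/
noncomputable def act (d : Data m) (π : Equiv.Perm (Fin m → Bool)) (x : ℤ → Bool) : ℤ → Bool :=
  flp x (dl d π x)

lemma dlP_iff (d : Data m) (π : Equiv.Perm (Fin m → Bool)) {x : ℤ → Bool} (hx : x ∈ X)
    {n : ℤ} (hn : Cen d.E x n) (i : Fin m) {s : ℤ} (hs0 : 0 ≤ s) (hs : s < 4) :
    dlP d π x (n + 4 * d.e i + s) ↔ π (bits d x n) i ≠ bits d x n i := by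
  constructor
  · rintro ⟨n', hn', i', s', hs0', hs', heq, hne⟩
    obtain ⟨j, hj⟩ := Mk_cong hx hn.1 hn'.1
    have h1 : s = s' := by omega
    subst h1
    have h2 : n + 4 * d.e i = n' + 4 * d.e i' := by omega
    have h3 := d.sep x hx n n' hn hn' i i' h2
    subst h3
    have h4 : d.e i = d.e i' := by omega
    have h5 := d.inj h4
    subst h5
    exact hne
  · intro h
    exact ⟨n, hn, i, s, hs0, hs, rfl, h⟩

lemma Good_dl (d : Data m) (π : Equiv.Perm (Fin m → Bool)) {x : ℤ → Bool} (hx : x ∈ X)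
    {n : ℤ} (hn : Mk x n) : Good n (fun j => lt x (n + 4 * j)) (dl d π x) := by
  intro j
  by_cases h : ∃ s : ℤ, 0 ≤ s ∧ s < 4 ∧ dlP d π x (n + 4 * j + s)
  · right
    obtain ⟨s, hs0, hs, n', hn', i', s', hs0', hs', heq, hne⟩ := h
    obtain ⟨j', hj'⟩ := Mk_cong hx hn hn'.1
    have h1 : s = s' := by omega
    subst h1
    have h2 : n + 4 * j = n' + 4 * d.e i' := by omega
    refine ⟨?_, ?_⟩
    · show lt x (n + 4 * j) = true
      rw [h2]
      exact d.isb _ hn'.2 i'
    · intro t ht0 ht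
      rw [h2]
      simp only [dl, decide_eq_true_eq]
      exact ⟨n', hn', i', t, ht0, ht, rfl, hne⟩
  · left
    intro s hs0 hs
    simp only [dl, decide_eq_false_iff_not]
    intro hcon
    exact h ⟨s, hs0, hs, hcon⟩

lemma no_Cen_dl (d : Data m) (π : Equiv.Perm (Fin m → Bool)) {x : ℤ → Bool}
    (h : ∀ n, ¬ Mk x n) : act d π x = x := by
  funext l
  have : dl d π x l = false := by
    simp only [dl, decide_eq_false_iff_not]
    rintro ⟨n, hn, -⟩
    exact h n hn.1
  simp [act, flp, this]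

lemma act_mem (d : Data m) (π : Equiv.Perm (Fin m → Bool)) {x : ℤ → Bool} (hx : x ∈ X) :
    act d π x ∈ X := by
  by_cases h : ∃ n, Mk x n
  · obtain ⟨n, hn⟩ := h
    exact (flip_Par (Par_of_Mk hx hn) (Good_dl d π hx hn)).mem
  · push Not at h
    rw [no_Cen_dl d π h]
    exact hx

lemma act_Mk (d : Data m) (π : Equiv.Perm (Fin m → Bool)) {x : ℤ → Bool} (hx : x ∈ X) (k : ℤ) :
    Mk (act d π x) k ↔ Mk x k := by
  by_cases h : ∃ n, Mk x n
  · obtain ⟨n, hn⟩ := h
    exact flip_Mk_iff (Par_of_Mk hx hn) (Good_dl d π hx hn) k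
  · push Not at h
    rw [no_Cen_dl d π h]

lemma act_lt (d : Data m) (π : Equiv.Perm (Fin m → Bool)) {x : ℤ → Bool} (hx : x ∈ X) {n : ℤ}
    (hn : Mk x n) (j : ℤ) : lt (act d π x) (n + 4 * j) = lt x (n + 4 * j) :=
  lt_of_Par (flip_Par (Par_of_Mk hx hn) (Good_dl d π hx hn)) j

lemma act_Cen (d : Data m) (π : Equiv.Perm (Fin m → Bool)) {x : ℤ → Bool} (hx : x ∈ X)
    (E : Set (ℤ → Bool)) (k : ℤ) : Cen E (act d π x) k ↔ Cen E x k := by
  unfold Cen
  rw [act_Mk d π hx]
  constructor
  · rintro ⟨h1, h2⟩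
    refine ⟨h1, ?_⟩
    simpa only [act_lt d π hx h1] using h2
  · rintro ⟨h1, h2⟩
    refine ⟨h1, ?_⟩
    simpa only [act_lt d π hx h1] using h2

lemma dl_true (d : Data m) (π : Equiv.Perm (Fin m → Bool)) (x : ℤ → Bool) (l : ℤ)
    (h : dlP d π x l) : dl d π x l = true := by
  simp only [dl, decide_eq_true_eq]; exact h

lemma dl_false (d : Data m) (π : Equiv.Perm (Fin m → Bool)) (x : ℤ → Bool) (l : ℤ)
    (h : ¬ dlP d π x l) : dl d π x l = false := by
  simp only [dl, decide_eq_false_iff_not]; exact h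

lemma dl_val (d : Data m) (π : Equiv.Perm (Fin m → Bool)) {x : ℤ → Bool} (hx : x ∈ X)
    {n : ℤ} (hn : Cen d.E x n) (i : Fin m) {s : ℤ} (hs0 : 0 ≤ s) (hs : s < 4) :
    dl d π x (n + 4 * d.e i + s) = (π (bits d x n) i).xor (bits d x n i) := by
  have h := dlP_iff d π hx hn i hs0 hs
  by_cases h2 : dlP d π x (n + 4 * d.e i + s)
  · rw [dl_true _ _ _ _ h2]
    have := h.1 h2
    revert this
    cases (π (bits d x n) i) <;> cases (bits d x n i) <;> simp
  · rw [dl_false _ _ _ _ h2]
    have := (not_iff_not.2 h).1 h2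
    push Not at this
    rw [this]
    simp

lemma act_bits (d : Data m) (π : Equiv.Perm (Fin m → Bool)) {x : ℤ → Bool} (hx : x ∈ X) {n : ℤ}
    (hn : Cen d.E x n) : bits d (act d π x) n = π (bits d x n) := by
  funext i
  have h := dl_val d π hx hn i (s := 1) (by norm_num) (by norm_num)
  have e : bits d (act d π x) n i = (bits d x n i).xor (dl d π x (n + 4 * d.e i + 1)) := rfl
  rw [e, h]
  cases (π (bits d x n) i) <;> cases (bits d x n i) <;> simp

lemma act_mul (d : Data m) (π ρ : Equiv.Perm (Fin m → Bool)) {x : ℤ → Bool} (hx : x ∈ X) :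
    act d (π * ρ) x = act d π (act d ρ x) := by
  funext l
  have hy := act_mem d ρ hx
  have e1 : act d (π * ρ) x l = (x l).xor (dl d (π * ρ) x l) := rfl
  have e2 : act d π (act d ρ x) l = ((x l).xor (dl d ρ x l)).xor (dl d π (act d ρ x) l) := rfl
  rw [e1, e2]
  by_cases h : ∃ n, Cen d.E x n ∧ ∃ i : Fin m, ∃ s : ℤ, 0 ≤ s ∧ s < 4 ∧ l = n + 4 * d.e i + s
  · obtain ⟨n, hn, i, s, hs0, hs, rfl⟩ := h
    have hn' := (act_Cen d ρ hx d.E n).2 hn
    rw [dl_val d (π * ρ) hx hn i hs0 hs, dl_val d ρ hx hn i hs0 hs, dl_val d π hy hn' i hs0 hs,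
      act_bits d ρ hx hn, Equiv.Perm.mul_apply]
    cases x (n + 4 * d.e i + s) <;> cases (π (ρ (bits d x n)) i) <;> cases (ρ (bits d x n) i) <;>
      cases (bits d x n i) <;> simp
  · have h1 : ∀ σ : Equiv.Perm (Fin m → Bool), ¬ dlP d σ x l := by
      rintro σ ⟨n, hn, i, s, hs0, hs, hl, -⟩
      exact h ⟨n, hn, i, s, hs0, hs, hl⟩
    have h2 : ¬ dlP d π (act d ρ x) l := by
      rintro ⟨n, hn, i, s, hs0, hs, hl, -⟩
      exact h ⟨n, (act_Cen d ρ hx d.E n).1 hn, i, s, hs0, hs, hl⟩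
    rw [dl_false _ _ _ _ (h1 _), dl_false _ _ _ _ (h1 _), dl_false _ _ _ _ h2]
    simp

lemma act_one (d : Data m) (x : ℤ → Bool) : act d 1 x = x := by
  funext l
  have : dl d 1 x l = false := by
    simp only [dl, decide_eq_false_iff_not]
    rintro ⟨n, hn, i, s, hs0, hs, hl, hne⟩
    exact hne rfl
  simp [act, flp, this]


/-! ### Equivariance and continuity -/

lemma Mk_shift (x : ℤ → Bool) (n : ℤ) : Mk (fun j => x (j + 1)) n ↔ Mk x (n + 1) := by
  unfold Mk
  rw [show n + 1 + 2 = n + 2 + 1 by ring, show n + 1 + 3 = n + 3 + 1 by ring,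
    show n + 1 + 4 = n + 4 + 1 by ring, show n + 1 + 5 = n + 5 + 1 by ring]

lemma lt_shift (x : ℤ → Bool) (k : ℤ) : lt (fun j => x (j + 1)) k = lt x (k + 1) := by
  unfold lt
  rw [show k + 1 + 2 = k + 2 + 1 by ring, show k + 1 + 3 = k + 3 + 1 by ring]

lemma Cen_shift (E : Set (ℤ → Bool)) (x : ℤ → Bool) (n : ℤ) :
    Cen E (fun j => x (j + 1)) n ↔ Cen E x (n + 1) := by
  unfold Cen
  rw [Mk_shift]
  simp only [lt_shift]
  have : (fun j => lt x (n + 4 * j + 1)) = fun j => lt x (n + 1 + 4 * j) := by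
    funext j
    rw [show n + 4 * j + 1 = n + 1 + 4 * j by ring]
  rw [this]

lemma act_shift (d : Data m) (π : Equiv.Perm (Fin m → Bool)) (x : ℤ → Bool) (l : ℤ) :
    act d π (fun j => x (j + 1)) l = act d π x (l + 1) := by
  have hb : ∀ n, bits d (fun j => x (j + 1)) n = bits d x (n + 1) := by
    intro n
    funext i
    simp only [bits]
    congr 1
    ring
  have h : dlP d π (fun j => x (j + 1)) l ↔ dlP d π x (l + 1) := by
    constructor
    · rintro ⟨n, hn, i, s, hs0, hs, hl, hne⟩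
      rw [hb] at hne
      exact ⟨n + 1, (Cen_shift _ _ _).1 hn, i, s, hs0, hs, by omega, hne⟩
    · rintro ⟨n, hn, i, s, hs0, hs, hl, hne⟩
      refine ⟨n - 1, (Cen_shift _ _ _).2 (by rwa [sub_add_cancel]), i, s, hs0, hs, by omega, ?_⟩
      rw [hb, sub_add_cancel]
      exact hne
  have e1 : act d π (fun j => x (j + 1)) l = (x (l + 1)).xor (dl d π (fun j => x (j + 1)) l) := rfl
  have e2 : act d π x (l + 1) = (x (l + 1)).xor (dl d π x (l + 1)) := rfl
  rw [e1, e2]
  congr 1
  by_cases h2 : dlP d π x (l + 1)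
  · rw [dl_true _ _ _ _ h2, dl_true _ _ _ _ (h.2 h2)]
  · rw [dl_false _ _ _ _ h2, dl_false _ _ _ _ (fun hh => h2 (h.1 hh))]

lemma e_bound (d : Data m) : ∃ M : ℕ, ∀ i, -(M : ℤ) ≤ d.e i ∧ d.e i ≤ M := by
  refine ⟨∑ i, (d.e i).natAbs, fun i => ?_⟩
  have h : (d.e i).natAbs ≤ ∑ i, (d.e i).natAbs :=
    Finset.single_le_sum (f := fun i => (d.e i).natAbs) (fun _ _ => Nat.zero_le _) (Finset.mem_univ i)
  constructor
  · have : -((d.e i).natAbs : ℤ) ≤ d.e i := by omega
    have h' : ((d.e i).natAbs : ℤ) ≤ ((∑ i, (d.e i).natAbs : ℕ) : ℤ) := by exact_mod_cast h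
    omega
  · have h' : ((d.e i).natAbs : ℤ) ≤ ((∑ i, (d.e i).natAbs : ℕ) : ℤ) := by exact_mod_cast h
    omega

lemma dlP_window (d : Data m) (π : Equiv.Perm (Fin m → Bool)) (M : ℕ)
    (hM : ∀ i, -(M : ℤ) ≤ d.e i ∧ d.e i ≤ M) (l : ℤ) (x y : ℤ → Bool)
    (hxy : ∀ i ∈ Finset.Icc (l - (8 * M + 4 * d.K + 20)) (l + (8 * M + 4 * d.K + 20)), x i = y i)
    (h : dlP d π x l) : dlP d π y l := by
  obtain ⟨n, hn, i, s, hs0, hs, hl, hne⟩ := h
  have hMi := hM i
  have agree : ∀ j : ℤ, n - (4 * M + 4 * d.K + 10) ≤ j → j ≤ n + (4 * M + 4 * d.K + 10) → x j = y j := by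
    intro j h1 h2
    apply hxy
    simp only [Finset.mem_Icc]
    constructor <;> omega
  refine ⟨n, ⟨?_, ?_⟩, i, s, hs0, hs, hl, ?_⟩
  · obtain ⟨h0, h1, h2, h3⟩ := hn.1
    refine ⟨?_, ?_, ?_, ?_⟩
    · rw [← agree _ (by omega) (by omega)]; exact h0
    · rw [← agree _ (by omega) (by omega)]; exact h1
    · rw [← agree _ (by omega) (by omega)]; exact h2
    · rw [← agree _ (by omega) (by omega)]; exact h3
  · refine d.window _ _ (fun j h1 h2 => ?_) hn.2
    simp only [lt]
    rw [agree _ (by omega) (by omega), agree (n + 4 * j + 1) (by omega) (by omega),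
      agree (n + 4 * j + 2) (by omega) (by omega), agree (n + 4 * j + 3) (by omega) (by omega)]
  · have : bits d y n = bits d x n := by
      funext i'
      have := hM i'
      simp only [bits]
      rw [agree _ (by omega) (by omega)]
    rw [this]
    exact hne

lemma act_continuous (d : Data m) (π : Equiv.Perm (Fin m → Bool)) : Continuous (act d π) := by
  obtain ⟨M, hM⟩ := e_bound d
  refine continuous_pi (fun l => ?_)
  refine continuous_of_window _ (Finset.Icc (l - (8 * M + 4 * d.K + 20)) (l + (8 * M + 4 * d.K + 20)))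
    (fun x y hxy => ?_)
  have e1 : act d π x l = (x l).xor (dl d π x l) := rfl
  have e2 : act d π y l = (y l).xor (dl d π y l) := rfl
  rw [e1, e2, hxy l (by simp only [Finset.mem_Icc]; constructor <;> omega)]
  congr 1
  by_cases h : dlP d π x l
  · rw [dl_true _ _ _ _ h, dl_true _ _ _ _ (dlP_window d π M hM l x y hxy h)]
  · rw [dl_false _ _ _ _ h, dl_false _ _ _ _ (fun h2 => h (dlP_window d π M hM l y x
      (fun i hi => (hxy i hi).symm) h2))]

/-! ### The automorphism group -/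

/-- The automorphism attached to a permutation. -/
noncomputable def homeo (d : Data m) (π : Equiv.Perm (Fin m → Bool)) : X ≃ₜ X where
  toFun x := ⟨act d π x.1, act_mem d π x.2⟩
  invFun x := ⟨act d π⁻¹ x.1, act_mem d π⁻¹ x.2⟩
  left_inv x := by
    apply Subtype.ext
    show act d π⁻¹ (act d π x.1) = x.1
    rw [← act_mul d _ _ x.2, inv_mul_cancel, act_one]
  right_inv x := by
    apply Subtype.ext
    show act d π (act d π⁻¹ x.1) = x.1
    rw [← act_mul d _ _ x.2, mul_inv_cancel, act_one]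
  continuous_toFun := by
    refine Continuous.subtype_mk ?_ _
    exact (act_continuous d π).comp continuous_subtype_val
  continuous_invFun := by
    refine Continuous.subtype_mk ?_ _
    exact (act_continuous d π⁻¹).comp continuous_subtype_val

lemma homeo_apply (d : Data m) (π : Equiv.Perm (Fin m → Bool)) (x : X) :
    (homeo d π x).1 = act d π x.1 := rfl

lemma homeo_mem (d : Data m) (π : Equiv.Perm (Fin m → Bool)) : homeo d π ∈ AutX := by
  intro x
  apply Subtype.ext
  rw [homeo_apply]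
  funext l
  exact act_shift d π x.1 l

/-- The homomorphism from a finite symmetric group to the automorphism group. -/
noncomputable def Psi (d : Data m) : Equiv.Perm (Fin m → Bool) →* AutX where
  toFun π := ⟨homeo d π, homeo_mem d π⟩
  map_one' := by
    apply Subtype.ext
    apply Homeomorph.ext
    intro x
    apply Subtype.ext
    show act d 1 x.1 = x.1
    exact act_one d x.1
  map_mul' π ρ := by
    apply Subtype.ext
    apply Homeomorph.ext
    intro x
    apply Subtype.ext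
    show act d (π * ρ) x.1 = act d π (act d ρ x.1)
    exact act_mul d π ρ x.2

/-! ### Group theory -/

lemma kill_alternating {α F : Type*} [Fintype α] [DecidableEq α] [Group F] [Fintype F]
    (hc : Fintype.card F + 2 ≤ Fintype.card α) (φ : Equiv.Perm α →* F) (σ : Equiv.Perm α)
    (hσ : σ ∈ alternatingGroup α) : φ σ = 1 := by
  classical
  have hpos : 0 < Fintype.card α := by omega
  obtain ⟨x0⟩ := Fintype.card_pos_iff.1 hpos
  obtain ⟨y, z, hyz, hφ⟩ : ∃ y z : {y : α // y ≠ x0}, y ≠ z ∧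
      φ (Equiv.swap x0 y.1) = φ (Equiv.swap x0 z.1) := by
    apply Fintype.exists_ne_map_eq_of_card_lt (fun y : {y : α // y ≠ x0} => φ (Equiv.swap x0 y.1))
    rw [Fintype.card_subtype_compl]
    simp
    omega
  have ht : (Equiv.swap x0 y.1 * Equiv.swap x0 z.1).IsThreeCycle :=
    Equiv.Perm.isThreeCycle_swap_mul_swap_same y.2.symm z.2.symm (fun h => hyz (Subtype.ext h))
  have hφt : φ (Equiv.swap x0 y.1 * Equiv.swap x0 z.1) = 1 := by
    rw [map_mul, hφ, ← map_mul, Equiv.swap_mul_self, map_one]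
  rw [← Equiv.Perm.closure_three_cycles_eq_alternating] at hσ
  have hle : Subgroup.closure {σ : Equiv.Perm α | σ.IsThreeCycle} ≤ φ.ker := by
    rw [Subgroup.closure_le]
    intro τ hτ
    have hconj : IsConj (Equiv.swap x0 y.1 * Equiv.swap x0 z.1) τ := by
      rw [Equiv.Perm.isConj_iff_cycleType_eq]
      exact ht.trans (Eq.symm hτ)
    rw [isConj_iff] at hconj
    obtain ⟨g, hg⟩ := hconj
    show φ τ = 1
    rw [← hg, map_mul, map_mul, hφt, mul_one, ← map_mul, mul_inv_cancel, map_one]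
  exact hle hσ

/-- flip of the bit number `0`. -/
def flip0 (M : ℕ) : Equiv.Perm (Fin (M + 1) → Bool) where
  toFun β := Function.update β 0 (!(β 0))
  invFun β := Function.update β 0 (!(β 0))
  left_inv β := by simp
  right_inv β := by simp

/-- flip of the bit number `1`. -/
def flip1 (M : ℕ) : Equiv.Perm (Fin (M + 2) → Bool) where
  toFun β := Function.update β 1 (!(β 1))
  invFun β := Function.update β 1 (!(β 1))
  left_inv β := by simp
  right_inv β := by simp

/-- add bit `1` to bit `0`. -/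
def cnot (M : ℕ) : Equiv.Perm (Fin (M + 2) → Bool) where
  toFun β := Function.update β 0 ((β 0).xor (β 1))
  invFun β := Function.update β 0 ((β 0).xor (β 1))
  left_inv β := by simp
  right_inv β := by simp

lemma flip0_apply (M : ℕ) (β : Fin (M + 1) → Bool) : flip0 M β = Function.update β 0 (!(β 0)) := rfl

lemma flip1_apply (M : ℕ) (β : Fin (M + 2) → Bool) : flip1 M β = Function.update β 1 (!(β 1)) := rfl

lemma cnot_apply (M : ℕ) (β : Fin (M + 2) → Bool) :
    cnot M β = Function.update β 0 ((β 0).xor (β 1)) := rfl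

lemma flip0_comm (M : ℕ) : flip0 (M + 1) = flip1 M * cnot M * (flip1 M)⁻¹ * (cnot M)⁻¹ := by
  have h : (1 : Fin (M + 2)) ≠ 0 := by simp
  have i1 : (flip1 M)⁻¹ = flip1 M := rfl
  have i2 : (cnot M)⁻¹ = cnot M := rfl
  rw [i1, i2]
  apply Equiv.ext
  intro β
  simp only [Equiv.Perm.mul_apply, flip0_apply, flip1_apply, cnot_apply]
  funext i
  by_cases hi0 : i = 0
  · subst hi0
    cases β 0 <;> cases h1 : β 1 <;> simp [h1]
  · by_cases hi1 : i = 1
    · subst hi1
      simp
    · simp [Function.update_of_ne hi0, Function.update_of_ne hi1]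

lemma flip0_mem (M : ℕ) : flip0 (M + 1) ∈ alternatingGroup (Fin (M + 2) → Bool) := by
  rw [Equiv.Perm.mem_alternatingGroup, flip0_comm]
  simp only [map_mul, map_inv]
  generalize Equiv.Perm.sign (flip1 M) = a
  generalize Equiv.Perm.sign (cnot M) = b
  rw [mul_comm a b, mul_assoc b, mul_inv_cancel, mul_one, mul_inv_cancel]


/-! ### The automorphism and the proof that finite quotients kill it -/

lemma act_flip0 {M : ℕ} (d : Data (M + 1)) (h0 : d.e 0 = 2) {x : ℤ → Bool} (l : ℤ) :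
    dlP d (flip0 M) x l ↔ ∃ n, Cen d.E x n ∧ ∃ s : ℤ, 0 ≤ s ∧ s < 4 ∧ l = n + 8 + s := by
  constructor
  · rintro ⟨n, hn, i, s, hs0, hs, hl, hne⟩
    have hi : i = 0 := by
      by_contra hi
      apply hne
      rw [flip0_apply, Function.update_of_ne hi]
    subst hi
    rw [h0] at hl
    exact ⟨n, hn, s, hs0, hs, by omega⟩
  · rintro ⟨n, hn, s, hs0, hs, hl⟩
    refine ⟨n, hn, 0, s, hs0, hs, by rw [h0]; omega, ?_⟩
    rw [flip0_apply, Function.update_self]
    simp

lemma dl_eq_of_iff {m m' : ℕ} (d : Data m) (d' : Data m') (π : Equiv.Perm (Fin m → Bool))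
    (π' : Equiv.Perm (Fin m' → Bool)) (x : ℤ → Bool) (l : ℤ) (h : dlP d π x l ↔ dlP d' π' x l) :
    dl d π x l = dl d' π' x l := by
  by_cases h2 : dlP d π x l
  · rw [dl_true _ _ _ _ h2, dl_true _ _ _ _ (h.1 h2)]
  · rw [dl_false _ _ _ _ h2, dl_false _ _ _ _ (fun hh => h2 (h.2 hh))]

lemma Psi_flip0_eq {M M' : ℕ} (d : Data (M + 1)) (d' : Data (M' + 1)) (h0 : d.e 0 = 2)
    (h0' : d'.e 0 = 2) (hE : ∀ x ∈ X, ∀ n, Cen d.E x n ↔ Cen d'.E x n) :
    Psi d (flip0 M) = Psi d' (flip0 M') := by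
  apply Subtype.ext
  apply Homeomorph.ext
  intro x
  apply Subtype.ext
  show act d (flip0 M) x.1 = act d' (flip0 M') x.1
  funext l
  show (x.1 l).xor (dl d (flip0 M) x.1 l) = (x.1 l).xor (dl d' (flip0 M') x.1 l)
  rw [dl_eq_of_iff d d' _ _ x.1 l]
  rw [act_flip0 d h0, act_flip0 d' h0']
  constructor
  · rintro ⟨n, hn, h⟩
    exact ⟨n, (hE x.1 x.2 n).1 hn, h⟩
  · rintro ⟨n, hn, h⟩
    exact ⟨n, (hE x.1 x.2 n).2 hn, h⟩

/-- Windows of radius `K`. -/
abbrev Win (K : ℕ) : Type := {j : ℤ // j ∈ Finset.Icc (-(K : ℤ)) K} → Bool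

/-- Restriction to the window. -/
def res (K : ℕ) (c : ℤ → Bool) : Win K := fun j => c j.1

/-- Letter sequences whose window is in `S` and whose letter number `2` is `b`. -/
def ES (K : ℕ) (S : Finset (Win K)) : Set (ℤ → Bool) := {c | c 2 = true ∧ res K c ∈ S}

lemma ES_window (K : ℕ) (S : Finset (Win K)) (c c' : ℤ → Bool)
    (h : ∀ j : ℤ, -((K + 2 : ℕ) : ℤ) ≤ j → j ≤ (K + 2 : ℕ) → c j = c' j) (hc : c ∈ ES K S) :
    c' ∈ ES K S := by
  obtain ⟨h1, h2⟩ := hc
  refine ⟨?_, ?_⟩
  · rw [← h 2 (by push_cast; omega) (by push_cast; omega)]; exact h1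
  · have : res K c' = res K c := by
      funext j
      obtain ⟨j, hj⟩ := j
      simp only [Finset.mem_Icc] at hj
      exact (h j (by push_cast; omega) (by push_cast; omega)).symm
    rw [this]; exact h2

/-- one-bit data -/
def dS (K : ℕ) (S : Finset (Win K)) : Data 1 where
  E := ES K S
  e := fun _ => 2
  K := K + 2
  window := ES_window K S
  isb := fun c hc _ => hc.1
  inj := fun i j _ => Subsingleton.elim i j
  sep := fun x _ n n' _ _ i i' h => by simpa using h

/-- The flip of the third tile at all centres with window in `S`. -/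
noncomputable def fS (K : ℕ) (S : Finset (Win K)) : AutX := Psi (dS K S) (flip0 0)

lemma AutX_ext (f g : AutX) (h : ∀ x : X, ∀ l, (f.1 x).1 l = (g.1 x).1 l) : f = g := by
  apply Subtype.ext
  apply Homeomorph.ext
  intro x
  apply Subtype.ext
  funext l
  exact h x l

lemma Psi_apply (d : Data m) (π : Equiv.Perm (Fin m → Bool)) (x : X) (l : ℤ) :
    ((Psi d π).1 x).1 l = (x.1 l).xor (dl d π x.1 l) := rfl

lemma fS_of_no_Cen (K : ℕ) (S : Finset (Win K)) (h : ∀ c ∈ X, c ∉ ES K S) : fS K S = 1 := by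
  apply AutX_ext
  intro x l
  show (x.1 l).xor (dl (dS K S) (flip0 0) x.1 l) = x.1 l
  rw [dl_false, Bool.xor_false]
  rintro ⟨n, hn, -⟩
  exact h _ (Par_of_Mk x.2 hn.1).2 hn.2

lemma fS_insert (K : ℕ) (S : Finset (Win K)) (v : Win K) (hv : v ∉ S) :
    fS K (insert v S) = fS K {v} * fS K S := by
  apply AutX_ext
  intro x l
  have e2 : ((fS K {v} * fS K S).1 x).1 l =
    ((x.1 l).xor (dl (dS K S) (flip0 0) x.1 l)).xor
      (dl (dS K {v}) (flip0 0) (act (dS K S) (flip0 0) x.1) l) := rfl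
  rw [e2]
  show (x.1 l).xor (dl (dS K (insert v S)) (flip0 0) x.1 l) = _
  have hC : ∀ n, Cen (ES K {v}) (act (dS K S) (flip0 0) x.1) n ↔ Cen (ES K {v}) x.1 n :=
    fun n => act_Cen _ _ x.2 _ n
  have i1 := act_flip0 (dS K (insert v S)) rfl (x := x.1) l
  have i2 := act_flip0 (dS K S) rfl (x := x.1) l
  have i3 := act_flip0 (dS K {v}) rfl (x := act (dS K S) (flip0 0) x.1) l
  have hcup : ∀ n, Cen (ES K (insert v S)) x.1 n ↔ Cen (ES K {v}) x.1 n ∨ Cen (ES K S) x.1 n := by
    intro n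
    unfold Cen
    rw [← and_or_left]
    apply and_congr_right
    intro _
    simp only [ES, Set.mem_ofPred_eq, Finset.mem_insert, Finset.mem_singleton]
    rw [← and_or_left]
  by_cases h3 : dlP (dS K {v}) (flip0 0) (act (dS K S) (flip0 0) x.1) l
  · have h2 : ¬ dlP (dS K S) (flip0 0) x.1 l := by
      intro h2
      obtain ⟨n, hn, s, hs0, hs, hl⟩ := i3.1 h3
      obtain ⟨n', hn', s', hs0', hs', hl'⟩ := i2.1 h2
      have hn := (hC n).1 hn
      obtain ⟨j, hj⟩ := Mk_cong x.2 hn.1 hn'.1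
      have : n = n' := by omega
      subst this
      have a1 : res K (fun j => lt x.1 (n + 4 * j)) ∈ ({v} : Finset (Win K)) := hn.2.2
      have a2 : res K (fun j => lt x.1 (n + 4 * j)) ∈ S := hn'.2.2
      rw [Finset.mem_singleton] at a1
      rw [a1] at a2
      exact hv a2
    have h1 : dlP (dS K (insert v S)) (flip0 0) x.1 l := by
      obtain ⟨n, hn, h⟩ := i3.1 h3
      exact i1.2 ⟨n, (hcup n).2 (Or.inl ((hC n).1 hn)), h⟩
    rw [dl_true _ _ _ _ h3, dl_true _ _ _ _ h1, dl_false _ _ _ _ h2]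
    simp
  · by_cases h2 : dlP (dS K S) (flip0 0) x.1 l
    · have h1 : dlP (dS K (insert v S)) (flip0 0) x.1 l := by
        obtain ⟨n, hn, h⟩ := i2.1 h2
        exact i1.2 ⟨n, (hcup n).2 (Or.inr hn), h⟩
      rw [dl_false _ _ _ _ h3, dl_true _ _ _ _ h1, dl_true _ _ _ _ h2]
      simp
    · have h1 : ¬ dlP (dS K (insert v S)) (flip0 0) x.1 l := by
        intro h1
        obtain ⟨n, hn, h⟩ := i1.1 h1
        rcases (hcup n).1 hn with hn | hn
        · exact h3 (i3.2 ⟨n, (hC n).2 hn, h⟩)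
        · exact h2 (i2.2 ⟨n, hn, h⟩)
      rw [dl_false _ _ _ _ h3, dl_false _ _ _ _ h1, dl_false _ _ _ _ h2]
      simp

lemma exists_b (c : ℤ → Bool) (hc : c ∈ X) (k : ℤ) : ∃ t : ℤ, k ≤ t ∧ t < k + 5 ∧ c t = true := by
  by_contra hcon
  push Not at hcon
  have h := fun t h1 h2 => Bool.eq_false_iff.2 (hcon t h1 h2)
  exact no_aaaaa c hc k ⟨h _ (by omega) (by omega), h _ (by omega) (by omega),
    h _ (by omega) (by omega), h _ (by omega) (by omega), h _ (by omega) (by omega)⟩

/-- positions of the bits used for a given window -/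
lemma exists_positions (c : ℤ → Bool) (hc : c ∈ X) (h2 : c 2 = true) (M : ℕ) :
    ∃ e : Fin (M + 2) → ℤ, e 0 = 2 ∧ Function.Injective e ∧ (∀ i, c (e i) = true) ∧
      ∀ i, 0 ≤ e i ∧ e i ≤ 5 * (M + 2 : ℕ) := by
  choose pos hp1 hp2 hp3 using exists_b c hc
  refine ⟨fun i => if i = 0 then 2 else pos (5 * (i : ℕ)), by simp, ?_, ?_, ?_⟩
  · intro i j hij
    simp only [] at hij
    have hi1 := hp1 (5 * ((i : ℕ) : ℤ))
    have hi2 := hp2 (5 * ((i : ℕ) : ℤ))
    have hj1 := hp1 (5 * ((j : ℕ) : ℤ))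
    have hj2 := hp2 (5 * ((j : ℕ) : ℤ))
    split_ifs at hij with h1 h2 h2
    · rw [h1, h2]
    · exfalso
      have : (j : ℕ) ≠ 0 := fun h => h2 (Fin.ext h)
      omega
    · exfalso
      have : (i : ℕ) ≠ 0 := fun h => h1 (Fin.ext h)
      omega
    · apply Fin.ext
      omega
  · intro i
    simp only []
    split_ifs with h
    · exact h2
    · exact hp3 _
  · intro i
    have hi1 := hp1 (5 * ((i : ℕ) : ℤ))
    have hi2 := hp2 (5 * ((i : ℕ) : ℤ))
    have := i.2
    by_cases h : i = 0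
    · simp only [if_pos h]
      constructor
      · norm_num
      · push_cast; omega
    · simp only [if_neg h]
      constructor
      · omega
      · push_cast; omega

lemma kill_single {F : Type*} [Group F] [Fintype F] (M : ℕ)
    (hM : Fintype.card F + 2 ≤ 2 ^ (M + 2)) (K : ℕ) (hK : 5 * (M + 2) ≤ K)
    (hsep : ∀ c ∈ X, ∀ p : ℕ, 0 < p → p ≤ 5 * (M + 2) →
      ∃ j : ℤ, -(K : ℤ) ≤ j ∧ j ≤ K ∧ c j ≠ c (j + p))
    (φ : AutX →* F) (v : Win K) : φ (fS K {v}) = 1 := by
  by_cases h : ∃ c ∈ X, c ∈ ES K {v}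
  · obtain ⟨c0, hc0, hc0E⟩ := h
    obtain ⟨e, he0, hinj, heb, hebd⟩ := exists_positions c0 hc0 hc0E.1 M
    have hc0v : res K c0 = v := by
      have := hc0E.2
      rwa [Finset.mem_singleton] at this
    have hwin : ∀ c ∈ ES K {v}, ∀ j : ℤ, -(K : ℤ) ≤ j → j ≤ K → c j = c0 j := by
      intro c hc j h1 h2
      have hcv : res K c = v := by
        have := hc.2
        rwa [Finset.mem_singleton] at this
      have : res K c ⟨j, by simp only [Finset.mem_Icc]; exact ⟨h1, h2⟩⟩ =
          res K c0 ⟨j, by simp only [Finset.mem_Icc]; exact ⟨h1, h2⟩⟩ := by rw [hcv, hc0v]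
      exact this
    have key : ∀ x ∈ X, ∀ n : ℤ, ∀ q : ℕ, 0 < q → q ≤ 5 * (M + 2) → Cen (ES K {v}) x n →
        ¬ Cen (ES K {v}) x (n + 4 * q) := by
      intro x hx n q hq0 hq hn hn'
      obtain ⟨j, hj1, hj2, hj3⟩ := hsep _ (Par_of_Mk hx hn.1).2 q hq0 hq
      apply hj3
      have a1 := hwin _ hn.2 j hj1 hj2
      have a2 := hwin _ hn'.2 j hj1 hj2
      show lt x (n + 4 * j) = lt x (n + 4 * (j + (q : ℤ)))
      rw [show n + 4 * (j + (q : ℤ)) = n + 4 * (q : ℤ) + 4 * j by ring]
      exact a1.trans a2.symm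
    let d : Data (M + 2) :=
      { E := ES K {v}
        e := e
        K := K + 2
        window := ES_window K {v}
        isb := fun c hc i => by
          have := hebd i
          rw [hwin c hc (e i) (by omega) (by push_cast at this ⊢; omega)]
          exact heb i
        inj := hinj
        sep := by
          intro x hx n n' hn hn' i i' hii
          obtain ⟨j, hj⟩ := Mk_cong hx hn.1 hn'.1
          have hi := hebd i
          have hi' := hebd i'
          by_contra hne
          rcases lt_trichotomy j 0 with hj0 | hj0 | hj0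
          · obtain ⟨q, hq⟩ : ∃ q : ℕ, j = -q := ⟨(-j).toNat, by omega⟩
            refine key x hx n' q (by omega) ?_ hn' ?_
            · zify; push_cast at hi hi' ⊢; omega
            · rw [show n' + 4 * (q : ℤ) = n by omega]; exact hn
          · subst hj0
            omega
          · obtain ⟨q, hq⟩ : ∃ q : ℕ, j = q := ⟨j.toNat, by omega⟩
            refine key x hx n q (by omega) ?_ hn ?_
            · zify; push_cast at hi hi' ⊢; omega
            · rw [show n + 4 * (q : ℤ) = n' by omega]; exact hn' }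
    have heq : fS K {v} = Psi d (flip0 (M + 1)) := by
      apply Psi_flip0_eq (dS K {v}) d rfl he0
      intro x _ n
      exact Iff.rfl
    rw [heq]
    refine kill_alternating (α := Fin (M + 2) → Bool) ?_ (φ.comp (Psi d)) _ (flip0_mem M)
    simpa using hM
  · push Not at h
    rw [fS_of_no_Cen K {v} h, map_one]

lemma kill_all {F : Type*} [Group F] [Fintype F] (φ : AutX →* F) :
    ∃ K, φ (fS K Finset.univ) = 1 := by
  have hM : Fintype.card F + 2 ≤ 2 ^ (Fintype.card F + 2) := (Nat.lt_two_pow_self).le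
  obtain ⟨K0, hK0⟩ := separation (5 * (Fintype.card F + 2))
  refine ⟨K0 + 5 * (Fintype.card F + 2), ?_⟩
  have hk := kill_single (F := F) (Fintype.card F) hM (K0 + 5 * (Fintype.card F + 2)) (by omega)
    (fun c hc p hp0 hp => by
      obtain ⟨j, h1, h2, h3⟩ := hK0 c hc p hp0 hp
      exact ⟨j, by push_cast; omega, by push_cast; omega, h3⟩) φ
  suffices ∀ S : Finset (Win (K0 + 5 * (Fintype.card F + 2))), φ (fS _ S) = 1 from this _
  intro S
  classical
  induction S using Finset.induction_on with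
  | empty =>
    rw [fS_of_no_Cen, map_one]
    intro c _ hc
    exact absurd hc.2 (Finset.notMem_empty _)
  | insert v S hv ih =>
    rw [fS_insert _ _ _ hv, map_mul, hk, ih, mul_one]

lemma fS_univ (K K' : ℕ) : fS K Finset.univ = fS K' Finset.univ := by
  apply Psi_flip0_eq (dS K Finset.univ) (dS K' Finset.univ) rfl rfl
  intro x _ n
  unfold Cen
  apply and_congr_right
  intro _
  show (_ ∧ _) ↔ (_ ∧ _)
  simp

/-! ### A point of `X` -/

/-- The fixed point of `a ↦ abaa, b ↦ abab`: the letter at `n` is `b` iff `n + 1` has odd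
`2`-adic valuation. -/
noncomputable def w (n : ℤ) : Bool := decide (Odd (padicValInt 2 (n + 1)))

lemma val_odd (n : ℤ) (h : ¬ (2 : ℤ) ∣ n) : padicValInt 2 n = 0 := by
  apply padicValInt.eq_zero_of_not_dvd
  exact_mod_cast h

lemma w0 (i : ℤ) : w (4 * i) = false := by
  unfold w
  rw [val_odd _ (by omega)]
  simp

lemma w2 (i : ℤ) : w (4 * i + 2) = false := by
  unfold w
  rw [val_odd _ (by omega)]
  simp

lemma w1 (i : ℤ) : w (4 * i + 1) = true := by
  unfold w
  have h : (4 * i + 1 + 1 : ℤ) = 2 * (2 * i + 1) := by ring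
  rw [h, padicValInt.mul (by norm_num) (by omega), val_odd (2 * i + 1) (by omega)]
  have : padicValInt 2 2 = 1 := by
    simpa using padicValInt.self (p := 2) (by norm_num)
  rw [this]
  decide

lemma w3 (i : ℤ) : w (4 * i + 3) = w i := by
  unfold w
  by_cases hi : i + 1 = 0
  · have : i = -1 := by omega
    subst this
    norm_num
  · have h : (4 * i + 3 + 1 : ℤ) = 2 * (2 * (i + 1)) := by ring
    have h2 : padicValInt 2 2 = 1 := by
      simpa using padicValInt.self (p := 2) (by norm_num)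
    rw [h, padicValInt.mul (by norm_num) (by omega), padicValInt.mul (by norm_num) hi, h2]
    congr 1
    rw [← add_assoc]
    apply propext
    constructor
    · intro h
      have := Nat.odd_add.1 h
      simp at this
      exact Nat.not_even_iff_odd.1 (fun hev => by
        have h3 := h
        rw [Nat.odd_iff] at h3
        rw [Nat.even_iff] at hev
        omega)
    · intro h
      rw [Nat.odd_iff] at h ⊢
      omega

lemma w_tile (j : ℤ) : T4 w (0 + 4 * j) ∈ subst (w j) := by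
  rw [zero_add]
  simp only [T4, w0, w1, w2, w3]
  cases w j
  · exact Or.inl rfl
  · exact Or.inl rfl

lemma w_mem : w ∈ X := by
  have hk : ∀ k : ℕ, Legal (seg w (-(4 : ℤ) ^ k) (2 * 4 ^ k)) := by
    intro k
    induction k with
    | zero =>
      have e0 : w (-1) = false := by
        unfold w; norm_num
      have e1 : w 0 = false := by
        have := w0 0
        simpa using this
      simp only [pow_zero, mul_one, seg]
      norm_num
      rw [e0, e1]
      refine ⟨1, [false, true, false, false], ?_, ⟨[false, true], [], rfl⟩⟩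
      simp only [iter, Set.mem_iUnion, Set.mem_singleton_iff, exists_prop, exists_eq_left]
      exact ⟨[false, true, false, false], Or.inl rfl, [], rfl, rfl⟩
    | succ k ih =>
      have := legal_seg w w 0 (-(4 : ℤ) ^ k) (2 * 4 ^ k) ih (fun j _ _ => w_tile j)
      have e1 : (0 + 4 * -(4 : ℤ) ^ k) = -(4 : ℤ) ^ (k + 1) := by ring
      have e2 : 4 * (2 * 4 ^ k) = 2 * 4 ^ (k + 1) := by ring
      rw [e1, e2] at this
      exact this
  rw [mem_X_iff]
  intro i n
  have hlt : (i.natAbs + n : ℕ) < 4 ^ (i.natAbs + n) := Nat.lt_pow_self (by norm_num)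
  have h1 : ((i.natAbs + n : ℕ) : ℤ) < (4 : ℤ) ^ (i.natAbs + n) := by exact_mod_cast hlt
  have h2 : ((2 * 4 ^ (i.natAbs + n) : ℕ) : ℤ) = 2 * (4 : ℤ) ^ (i.natAbs + n) := by push_cast; ring
  refine (hk (i.natAbs + n)).sub (seg_infix _ _ _ _ _ ?_ ?_)
  · generalize (4 : ℤ) ^ (i.natAbs + n) = A at *
    omega
  · rw [h2]
    generalize (4 : ℤ) ^ (i.natAbs + n) = A at *
    omega

/-- The tile of letter `c` whose second letter is `β`. -/
def tl (c β : Bool) : ℤ → Bool
  | 0 => c && !β
  | 1 => β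
  | 2 => !β
  | _ => c && β

/-- A point with a marker at `0` followed by a tile of letter `b`. -/
noncomputable def pt : ℤ → Bool := fun n => tl (w (n / 4 - 1)) (decide (n / 4 ≠ 1)) (n % 4)

lemma pt_tile (j : ℤ) : T4 pt (0 + 4 * j) ∈ subst (w (j + -1)) := by
  have h0 : pt (0 + 4 * j) = tl (w (j + -1)) (decide (j ≠ 1)) 0 := by
    unfold pt
    rw [show (0 + 4 * j) / 4 = j by omega, show (0 + 4 * j) % 4 = 0 by omega, sub_eq_add_neg]
  have h1 : pt (0 + 4 * j + 1) = tl (w (j + -1)) (decide (j ≠ 1)) 1 := by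
    unfold pt
    rw [show (0 + 4 * j + 1) / 4 = j by omega, show (0 + 4 * j + 1) % 4 = 1 by omega, sub_eq_add_neg]
  have h2 : pt (0 + 4 * j + 2) = tl (w (j + -1)) (decide (j ≠ 1)) 2 := by
    unfold pt
    rw [show (0 + 4 * j + 2) / 4 = j by omega, show (0 + 4 * j + 2) % 4 = 2 by omega, sub_eq_add_neg]
  have h3 : pt (0 + 4 * j + 3) = tl (w (j + -1)) (decide (j ≠ 1)) 3 := by
    unfold pt
    rw [show (0 + 4 * j + 3) / 4 = j by omega, show (0 + 4 * j + 3) % 4 = 3 by omega, sub_eq_add_neg]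
  simp only [T4, h0, h1, h2, h3, tl]
  cases w (j + -1) <;> cases (decide (j ≠ 1))
  · exact Or.inr rfl
  · exact Or.inl rfl
  · exact Or.inr rfl
  · exact Or.inl rfl

lemma pt_Par : Par pt 0 (fun j => w (j + -1)) := ⟨pt_tile, mem_X_shift w (-1) w_mem⟩

lemma pt_Cen (K : ℕ) : Cen (ES K Finset.univ) pt 0 := by
  have e0 : w (-1) = false := by
    unfold w; norm_num
  have e1 : w 0 = false := by
    have := w0 0
    simpa using this
  refine ⟨⟨?_, ?_, ?_, ?_⟩, ?_, Finset.mem_univ _⟩
  · simp [pt, tl]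
  · simp [pt, tl, e0]
  · simp [pt, tl, e1]
  · simp [pt, tl]
  · have h2 := lt_of_Par pt_Par 2
    have h3 := w1 0
    show lt pt (0 + 4 * 2) = true
    rw [h2]
    simpa using h3

lemma fS_ne_one (K : ℕ) : fS K Finset.univ ≠ 1 := by
  intro h
  have h1 : ((fS K Finset.univ).1 ⟨pt, pt_Par.mem⟩).1 8 = ((1 : AutX).1 ⟨pt, pt_Par.mem⟩).1 8 := by
    rw [h]
  have h2 : (pt 8).xor (dl (dS K Finset.univ) (flip0 0) pt 8) = pt 8 := h1
  rw [dl_true] at h2
  · simp at h2
  · rw [act_flip0 _ rfl]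
    exact ⟨0, pt_Cen K, 0, by norm_num, by norm_num, by norm_num⟩

/-- The automorphism group of the subshift `X` is not residually finite. -/
theorem not_residuallyFinite : ¬ Group.ResiduallyFinite AutX := by
  intro h
  have h1 := (Group.residuallyFinite_iff_exists_finiteIndexNormalSubgroup.1 h)
    (fS 0 Finset.univ) (fS_ne_one 0)
  obtain ⟨H, hH⟩ := h1
  apply hH
  have : Finite (AutX ⧸ H.toSubgroup) := inferInstance
  let _ : Fintype (AutX ⧸ H.toSubgroup) := Fintype.ofFinite _
  obtain ⟨K, hK⟩ := kill_all (QuotientGroup.mk' H.toSubgroup)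
  rw [fS_univ 0 K]
  exact (QuotientGroup.eq_one_iff _).1 hK

end Pool.Agent.helper30.RandomSubst
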